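import Pool.Agent.Q161.ESJ.Stm1
import Pool.Agent.Q177.ESG.GDJ
import Pool.Agent.Q149.ESM.ZEXa

/-!
# Project ESJ (helper161), job CMP: the completion of `F` at `v` in the algebraic closure of `ℚ_l`
-/

set_option autoImplicit false
set_option linter.unusedSectionVars false
set_option linter.style.haveILetI false

namespace Pool.Agent.Q285.ESJ.Cmp

open NumberField IsDedekindDomain WithZero Filter Topology MonoidWithZeroHom
open Pool.Agent.Q51.EL (Abv)
open Pool.Agent.Q161.ESJ
open Pool.Agent.Q161.ESN (Ov)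
open Pool.Agent.Q177.ESG.GDJ (IP norm_ip)

variable {F : Type} [Field F] [NumberField F] {l : ℕ} [Fact l.Prime]

/-- the field generated over `ℚ_l` by the image of `F` -/
noncomputable abbrev EE (f : F →+* PadicAlgCl l) : IntermediateField ℚ_[l] (PadicAlgCl l) :=
  IntermediateField.adjoin ℚ_[l] (Set.range fun x : F => f x)

lemma mem_EE (f : F →+* PadicAlgCl l) (x : F) : f x ∈ EE f :=
  IntermediateField.subset_adjoin _ _ ⟨x, rfl⟩

/-- it is a finite extension of `ℚ_l` -/
lemma fin_EE (f : F →+* PadicAlgCl l) : FiniteDimensional ℚ_[l] (EE f) := by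
  let b := Module.finBasis ℚ F
  let S : Set (PadicAlgCl l) := Set.range fun i => f (b i)
  have hE : EE f = IntermediateField.adjoin ℚ_[l] S := by
    apply le_antisymm
    · rw [IntermediateField.adjoin_le_iff]
      rintro _ ⟨x, rfl⟩
      have hx := b.sum_repr x
      have h1 : f x = ∑ i, ((b.repr x i : ℚ) : PadicAlgCl l) * f (b i) := by
        conv_lhs => rw [← hx]
        rw [map_sum]
        refine Finset.sum_congr rfl fun i _ => ?_
        rw [Rat.smul_def, map_mul, map_ratCast]
      show f x ∈ IntermediateField.adjoin ℚ_[l] S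
      rw [h1]
      refine sum_mem fun i _ => mul_mem ?_ (IntermediateField.subset_adjoin _ _ ⟨i, rfl⟩)
      have h2 : ((b.repr x i : ℚ) : PadicAlgCl l) =
          algebraMap ℚ_[l] (PadicAlgCl l) ((b.repr x i : ℚ) : ℚ_[l]) := by
        rw [map_ratCast]
      rw [h2]
      exact IntermediateField.algebraMap_mem _ _
    · rw [IntermediateField.adjoin_le_iff]
      rintro _ ⟨i, rfl⟩
      exact mem_EE f (b i)
  rw [hE]
  have : Finite S := Set.finite_range _
  exact IntermediateField.finiteDimensional_adjoin fun x _ => Algebra.IsIntegral.isIntegral x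

/-- the elements of the field are fixed by the automorphisms which are trivial on `F` -/
lemma fix_EE (f : F →+* PadicAlgCl l) (τ : PadicAlgCl l ≃ₐ[ℚ_[l]] PadicAlgCl l)
    (hτ : ∀ x : F, τ (f x) = f x) (c : PadicAlgCl l) (hc : c ∈ EE f) : τ c = c := by
  induction hc using IntermediateField.adjoin_induction with
  | mem x hx =>
    obtain ⟨y, rfl⟩ := hx
    exact hτ y
  | algebraMap x => exact τ.commutes x
  | add x y _ _ hx hy => rw [map_add, hx, hy]
  | inv x _ hx => rw [map_inv₀, hx]
  | mul x y _ _ hx hy => rw [map_mul, hx, hy]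

/-- the map to the field generated by the image -/
noncomputable def fE (f : F →+* PadicAlgCl l) : F →+* EE f := f.codRestrict (EE f) (mem_EE f)

lemma norm_fE (f : F →+* PadicAlgCl l) (x : F) : ‖fE f x‖ = ‖f x‖ := rfl

variable (v : HeightOneSpectrum (𝓞 F)) (f : F →+* PadicAlgCl l)
  (hf : ∀ (x : F) (m : ℤ), v.valuation F x = exp (-m) → ‖f x‖ = (l : ℝ) ^ (-m))

/-- the field with the topology of the valuation -/
noncomputable def wf : WithVal (v.valuation F) →+* EE f :=
  (fE f).comp (WithVal.equiv (v.valuation F)).toRingHom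

include hf in
lemma norm_bound (n : ℕ) (x : F) (hx : v.valuation F x < exp (-(n : ℤ))) : ‖f x‖ ≤ (l : ℝ) ^ (-(n : ℤ)) := by
  have hl : (1 : ℝ) < l := by exact_mod_cast (Fact.out : l.Prime).one_lt
  by_cases h0 : x = 0
  · rw [h0, map_zero, norm_zero]
    positivity
  · have h1 : v.valuation F x ≠ 0 := (Valuation.ne_zero_iff _).2 h0
    have h2 : exp (log (v.valuation F x)) = v.valuation F x := exp_log h1
    rw [← h2, exp_lt_exp] at hx
    have h3 := hf x (-log (v.valuation F x)) (by rw [neg_neg, h2])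
    rw [h3, neg_neg]
    exact zpow_le_zpow_right₀ hl.le hx.le

include hf in
theorem wf_cont : Continuous (wf v f) := by
  have hl : (1 : ℝ) < l := by exact_mod_cast (Fact.out : l.Prime).one_lt
  have key : ContinuousAt (wf v f).toAddMonoidHom 0 := by
    show Tendsto (wf v f) (𝓝 0) (𝓝 (wf v f 0))
    rw [map_zero]
    intro s hs
    obtain ⟨ε, hε, hs⟩ := Metric.mem_nhds_iff.1 hs
    obtain ⟨n, hn⟩ := exists_pow_lt_of_lt_one hε (inv_lt_one_of_one_lt₀ hl)
    obtain ⟨π, hπ⟩ := v.valuation_exists_uniformizer F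
    have hπ0 : π ≠ 0 := by
      rintro rfl
      rw [map_zero] at hπ
      exact exp_ne_zero hπ.symm
    have hne : (Valued.v (R := WithVal (v.valuation F))).restrict
        (WithVal.toVal (v.valuation F) (π ^ n)) ≠ 0 := by
      rw [Valuation.ne_zero_iff]
      intro h
      exact pow_ne_zero n hπ0 ((WithVal.toVal_eq_zero _ _).1 h)
    rw [Filter.mem_map, Valued.mem_nhds_zero]
    refine ⟨Units.mk0 _ hne, fun x hx => hs ?_⟩
    have hx' : Valued.v x < Valued.v (WithVal.toVal (v.valuation F) (π ^ n)) :=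
      (Valuation.restrict_lt_iff _).1 hx
    have hx2 : v.valuation F x.ofVal < v.valuation F (π ^ n) := hx'
    have hx3 : v.valuation F x.ofVal < exp (-(n : ℤ)) := by
      refine lt_of_lt_of_le hx2 (le_of_eq ?_)
      rw [map_pow, hπ, ← exp_nsmul]
      congr 1
      simp
    rw [Metric.mem_ball, dist_zero_right]
    have h4 := norm_bound v f hf n x.ofVal hx3
    have h5 : ‖wf v f x‖ = ‖f x.ofVal‖ := rfl
    rw [h5]
    refine lt_of_le_of_lt h4 ?_
    rw [zpow_neg, zpow_natCast, ← inv_pow]
    exact hn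
  exact continuous_of_continuousAt_zero (wf v f).toAddMonoidHom key

include hf in
theorem exists_j : ∃ j : v.adicCompletion F →+* PadicAlgCl l,
    (∀ x : F, j (algebraMap F (v.adicCompletion F) x) = f x) ∧ ∀ a, j a ∈ EE f := by
  haveI := fin_EE f
  haveI : CompleteSpace (EE f) := FiniteDimensional.complete ℚ_[l] (EE f)
  have hc := wf_cont v f hf
  set j0 := UniformSpace.Completion.extensionHom (wf v f) hc with hj0
  set j1 : v.adicCompletion F →+* EE f :=
    j0.comp (HeightOneSpectrum.adicCompletion.equiv F v).toRingHom with hj1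
  refine ⟨(algebraMap (EE f) (PadicAlgCl l)).comp j1, fun x => ?_, fun a => (j1 a).2⟩
  have h1 : j1 (algebraMap F (v.adicCompletion F) x) = fE f x :=
    UniformSpace.Completion.extensionHom_coe (wf v f) hc (WithVal.toVal _ x)
  rw [RingHom.comp_apply, h1]
  rfl

theorem cmp : S_CMP := by
  intro F K _ _ _ _ _ l _ hsq w v hw hov ψ hψ
  have hl : l ≠ 0 := (Fact.out : l.Prime).ne_zero
  let f : F →+* PadicAlgCl l := ψ.comp (algebraMap F K)
  have hval : ∀ x : F, w.valuation K (algebraMap F K x) = v.valuation F x := fun x =>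
    Pool.Agent.Q149.ESM.val_blw (algebraMap F K) hl hsq hw hov x
  have hf : ∀ (x : F) (m : ℤ), v.valuation F x = exp (-m) → ‖f x‖ = (l : ℝ) ^ (-m) := by
    intro x m h
    exact hψ (algebraMap F K x) m (by rw [hval, h])
  refine ⟨exists_j v f hf, ?_⟩
  intro c hc hc0
  refine norm_ip f ?_ c hc0 fun τ hτ => fix_EE f τ hτ c hc
  intro x hx
  have h1 : v.valuation F x ≠ 0 := (Valuation.ne_zero_iff _).2 hx
  have h2 : exp (log (v.valuation F x)) = v.valuation F x := exp_log h1
  exact ⟨_, hf x (-log (v.valuation F x)) (by rw [neg_neg, h2])⟩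

end Pool.Agent.Q285.ESJ.Cmp
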